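import Pool.Agent.Y135.BQs

set_option autoImplicit false

/-!
# Project TEN, part BERT

A pencil of forms without common factor has only finitely many members which are not squarefree.
-/

open MvPolynomial

namespace Pool.Agent.Y153.TEN

theorem main_BERT : Pool.Agent.Y135.BQ.S_BERT := by
  classical
  intro e P R he hP hR hP0 hR0 hPR
  have hJ : ∃ i, P * pderiv i R - R * pderiv i P ≠ 0 := by
    by_contra hcon
    push Not at hcon
    have hd : ∀ i, pderiv i P = 0 := by
      intro i
      by_contra h0
      have h1 : P ∣ R * pderiv i P := ⟨pderiv i R, by linear_combination -(hcon i)⟩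
      have h2 : P ∣ pderiv i P := hPR.dvd_of_dvd_mul_left h1
      have h3 := MvPolynomial.totalDegree_le_of_dvd_of_isDomain h2 h0
      have h4 : (pderiv i P).totalDegree = e - 1 := (hP.pderiv).totalDegree h0
      have h5 : P.totalDegree = e := hP.totalDegree hP0
      omega
    have h5 := hP.sum_X_mul_pderiv
    simp only [hd, mul_zero, Finset.sum_const_zero] at h5
    rw [nsmul_eq_mul] at h5
    rcases mul_eq_zero.1 h5.symm with h6 | h6
    · exact he.ne' (by exact_mod_cast h6)
    · exact hP0 h6
  refine ⟨hJ, ?_⟩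
  obtain ⟨i, hi⟩ := hJ
  have hne : ∀ c : ℂ, P + C c * R ≠ 0 := by
    intro c hc
    have h1 : R ∣ P := ⟨-C c, by linear_combination hc⟩
    have h2 : IsUnit R := hPR h1 dvd_rfl
    have h3 : R.totalDegree = 0 := by
      have := MvPolynomial.totalDegree_le_of_dvd_of_isDomain h2.dvd (one_ne_zero)
      simpa using this
    have h4 : R.totalDegree = e := hR.totalDegree hR0
    omega
  have hA : ∀ c : ℂ, ¬ Squarefree (P + C c * R) →
      ∃ q ∈ UniqueFactorizationMonoid.factors (P * pderiv i R - R * pderiv i P),
        Irreducible q ∧ q ∣ P + C c * R := by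
    intro c hc
    rw [squarefree_iff_no_irreducibles (hne c)] at hc
    push Not at hc
    obtain ⟨A, hA1, B, hB⟩ := hc
    have h1 : A ∣ P + C c * R := ⟨A * B, by rw [hB]; ring⟩
    have h2 : A ∣ pderiv i (P + C c * R) := by
      rw [hB, Derivation.leibniz, Derivation.leibniz]
      simp only [smul_eq_mul]
      exact ⟨A * pderiv i B + B * (pderiv i A + pderiv i A), by ring⟩
    have h3 : pderiv i (P + C c * R) = pderiv i P + C c * pderiv i R := by
      rw [map_add, Derivation.leibniz, pderiv_C]
      simp [smul_eq_mul]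
    rw [h3] at h2
    have h4 : A ∣ P * pderiv i R - R * pderiv i P := by
      have e1 : P * pderiv i R - R * pderiv i P =
          (P + C c * R) * pderiv i R - R * (pderiv i P + C c * pderiv i R) := by ring
      rw [e1]
      exact dvd_sub (h1.mul_right _) (h2.mul_left _)
    obtain ⟨q, hq, hAq⟩ := UniqueFactorizationMonoid.exists_mem_factors_of_dvd hi hA1 h4
    exact ⟨q, hq, hAq.irreducible hA1, hAq.symm.dvd.trans h1⟩
  choose! f hf1 hf2 hf3 using hA
  refine Set.Finite.of_injOn (f := f)
    (t := ((UniqueFactorizationMonoid.factors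
      (P * pderiv i R - R * pderiv i P)).toFinset : Set (MvPolynomial (Fin 3) ℂ))) ?_ ?_
    (Finset.finite_toSet _)
  · intro c hc
    exact Finset.mem_coe.2 (Multiset.mem_toFinset.2 (hf1 c hc))
  · intro c hc c' hc' heq
    by_contra hcc
    have h1 := hf3 c hc
    have h2 := hf3 c' hc'
    rw [← heq] at h2
    have h3 : f c ∣ C (c - c') * R := by
      have e1 : C (c - c') * R = (P + C c * R) - (P + C c' * R) := by
        rw [C_sub]; ring
      rw [e1]
      exact dvd_sub h1 h2
    have hu : IsUnit (C (c - c') : MvPolynomial (Fin 3) ℂ) :=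
      (IsUnit.mk0 _ (sub_ne_zero.2 hcc)).map C
    have h4 : f c ∣ R := (hu.dvd_mul_left).1 h3
    have h5 : f c ∣ P := (dvd_add_left (h4.mul_left _)).1 h1
    exact (hf2 c hc).not_isUnit (hPR h5 h4)

end Pool.Agent.Y153.TEN
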